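import Mathlib

/-! An improving response cycle with two empty nodes and three types. -/

namespace Pool.Agent.Results.MP_3e19fa_lc.TwoEmptyNodes

variable {V A T : Type*}

/-- the utility of agent `i`: the number of types other than its own occurring among the agents on
the neighbours of its node -/
noncomputable def utility (G : SimpleGraph V) (τ : A → T) (σ : A → V) (i : A) : ℕ :=
  Set.ncard {t | t ≠ τ i ∧ ∃ j, τ j = t ∧ G.Adj (σ i) (σ j)}

/-- `σ'` arises from the assignment `σ` by an improving jump: one agent `i` moves to a node that is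
empty in `σ`, all others stay, and the utility of `i` becomes larger -/
def ImprovingJump (G : SimpleGraph V) (τ : A → T) (σ σ' : A → V) : Prop :=
  ∃ i, (∀ j, σ j ≠ σ' i) ∧ (∀ j, j ≠ i → σ' j = σ j) ∧ utility G τ σ i < utility G τ σ' i

/-- adjacency lists of the graph -/
def adjB (i j : ℕ) : Bool :=
  ([[3, 6, 7], [2, 5, 7], [1, 4, 6], [0, 4, 5], [2, 3, 5, 6], [1, 3, 4, 7], [0, 2, 4, 7],
    [0, 1, 5, 6]].getD i []).contains j

/-- the graph on 8 nodes -/
def G : SimpleGraph (Fin 8) where
  Adj i j := adjB i j = true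
  symm := ⟨by decide +kernel⟩
  loopless := ⟨by decide +kernel⟩

instance : DecidableRel G.Adj := fun i j => inferInstanceAs (Decidable (adjB i j = true))

/-- the types of the six agents -/
def τ : Fin 6 → Fin 3 := fun i => ⟨i.1 / 2, by omega⟩

/-- the assignments of the cycle -/
def S (k : ℕ) : Fin 6 → Fin 8 := fun i =>
  Fin.ofNat 8 (([[0, 5, 2, 7, 3, 4], [0, 5, 2, 6, 3, 4], [0, 5, 2, 6, 1, 4], [0, 7, 2, 6, 1, 4],
    [0, 7, 3, 6, 1, 4], [0, 7, 3, 6, 1, 5], [2, 7, 3, 6, 1, 5], [2, 7, 3, 4, 1, 5],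
    [2, 7, 3, 4, 0, 5], [2, 6, 3, 4, 0, 5], [2, 6, 1, 4, 0, 5], [2, 6, 1, 4, 0, 7],
    [3, 6, 1, 4, 0, 7], [3, 6, 1, 5, 0, 7], [3, 6, 1, 5, 2, 7], [3, 4, 1, 5, 2, 7],
    [3, 4, 0, 5, 2, 7], [3, 4, 0, 5, 2, 6], [1, 4, 0, 5, 2, 6], [1, 4, 0, 7, 2, 6],
    [1, 4, 0, 7, 3, 6], [1, 5, 0, 7, 3, 6], [1, 5, 2, 7, 3, 6], [1, 5, 2, 7, 3, 4],
    [0, 5, 2, 7, 3, 4]].getD k []).getD i.1 0)

/-- computable utility -/
def util (σ : Fin 6 → Fin 8) (i : Fin 6) : ℕ :=
  (Finset.univ.filter (fun t : Fin 3 => t ≠ τ i ∧ ∃ j, τ j = t ∧ G.Adj (σ i) (σ j))).card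

theorem util_eq (σ : Fin 6 → Fin 8) (i : Fin 6) : utility G τ σ i = util σ i := by
  unfold utility util
  rw [← Set.ncard_coe_finset]
  congr 1
  ext t
  simp

theorem step (k : ℕ) (hk : k < 24) : ImprovingJump G τ (S k) (S (k + 1)) := by
  have h : ∀ k < 24, ∃ i, (∀ j, S k j ≠ S (k + 1) i) ∧ (∀ j, j ≠ i → S (k + 1) j = S k j) ∧
      util (S k) i < util (S (k + 1)) i := by decide +kernel
  obtain ⟨i, h1, h2, h3⟩ := h k hk
  exact ⟨i, h1, h2, by rw [util_eq, util_eq]; exact h3⟩

theorem chain : ∀ m, m < 24 → Relation.TransGen (ImprovingJump G τ) (S 0) (S (m + 1)) := by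
  intro m
  induction m with
  | zero => intro h; exact Relation.TransGen.single (step 0 h)
  | succ m ih => intro h; exact Relation.TransGen.tail (ih (by omega)) (step (m + 1) h)

/-- There are a connected graph with 8 nodes and 6 agents of three types (two agents of each type),
so exactly two empty nodes, such that the jump game has an improving response cycle. -/
theorem result : ∃ (G : SimpleGraph (Fin 8)) (τ : Fin 6 → Fin 3) (σ : Fin 6 → Fin 8),
    G.Connected ∧ Function.Surjective τ ∧ Function.Injective σ ∧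
    Relation.TransGen (ImprovingJump G τ) σ σ := by
  refine ⟨G, τ, S 0, ?_, by decide +kernel, by decide +kernel, ?_⟩
  · rw [SimpleGraph.connected_iff]
    have h : ∀ v : Fin 8, G.Reachable v 4 := by
      have e : ∀ a b : Fin 8, G.Adj a b → G.Reachable a b := fun a b h => h.reachable
      have h2 := e 2 4 (by decide +kernel)
      have h3 := e 3 4 (by decide +kernel)
      have h5 := e 5 4 (by decide +kernel)
      have h6 := e 6 4 (by decide +kernel)
      have h0 := (e 0 3 (by decide +kernel)).trans h3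
      have h1 := (e 1 2 (by decide +kernel)).trans h2
      have h7 := (e 7 5 (by decide +kernel)).trans h5
      intro v
      fin_cases v
      · exact h0
      · exact h1
      · exact h2
      · exact h3
      · exact SimpleGraph.Reachable.refl _
      · exact h5
      · exact h6
      · exact h7
    exact ⟨fun u v => (h u).trans (h v).symm, ⟨0⟩⟩
  · have h24 : S 24 = S 0 := by decide +kernel
    have := chain 23 (by norm_num)
    rwa [h24] at this

end Pool.Agent.Results.MP_3e19fa_lc.TwoEmptyNodes
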